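import Pool.Agent.Lib.MP_0fc137_lc.Transfer

universe a

open Pool.Agent.MP0fc137

/-- For every finite alphabet `S` with at least three letters there are a morphically primitive
pattern `α`, quasi-terminal-free on `S`, and a variable `i` of `α` such that every telltale
candidate for `i` is substantially ambiguous for `i` in `α`. -/
theorem Pool.Agent.Results.MP_0fc137_lc.TelltaleAmbiguous.result (S : Type a) [Fintype S]
    [DecidableEq S] (hS : 3 ≤ Fintype.card S) :
    ∃ (α : PWord S) (i : ℕ+), IsPattern α ∧ MorphicallyPrimitive α ∧ QuasiTerminalFree α ∧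
      InVar i α ∧ ∀ σ : PWord S →* FreeMonoid S, IsTelltaleCandidate σ α i →
        SubstantiallyAmbiguous σ α i := by
  obtain ⟨M, hM⟩ : ∃ M : ℕ, Fintype.card S = M + 3 := ⟨Fintype.card S - 3, by omega⟩
  let E : Fin (M + 3) ≃ S := (Fintype.equivFinOfCardEq hM).symm
  let x : ℕ → S := fun j => E (if h : j ≤ M then ⟨j, by omega⟩ else ⟨0, by omega⟩)
  let d : S := E ⟨M + 1, by omega⟩
  let e : S := E ⟨M + 2, by omega⟩
  have hxd : ∀ j, x j ≠ d := by
    intro j h
    have h' := E.injective h
    split_ifs at h' with hj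
    · simp only [Fin.mk.injEq] at h'; omega
    · simp only [Fin.mk.injEq] at h'; omega
  have hxe : ∀ j, x j ≠ e := by
    intro j h
    have h' := E.injective h
    split_ifs at h' with hj
    · simp only [Fin.mk.injEq] at h'; omega
    · simp only [Fin.mk.injEq] at h'; omega
  have hde : d ≠ e := by
    intro h
    have h' := E.injective h
    simp only [Fin.mk.injEq] at h'
    omega
  have hx : ∀ A : S, A = d ∨ A = e ∨ ∃ j ≤ M, x j = A := by
    intro A
    obtain ⟨⟨n, hn⟩, rfl⟩ := E.surjective A
    rcases Nat.lt_trichotomy n (M + 1) with h | h | h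
    · refine Or.inr (Or.inr ⟨n, by omega, ?_⟩)
      simp only [x]
      rw [dif_pos (by omega : n ≤ M)]
    · subst h
      exact Or.inl rfl
    · obtain rfl : n = M + 2 := by omega
      exact Or.inr (Or.inl rfl)
  have hw : InVar (V.ι .w) (pat M x) := mem_pat_iff.2 ⟨_, K_mem_word (by simp [K]), rfl⟩
  refine ⟨pat M x, V.ι .w, ?_, pat_primitive M x, pat_quasi M x d e hde hxd hxe, hw,
    pat_ambiguous M x d e hx⟩
  intro h1
  rw [InVar, h1] at hw
  simp at hw
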